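import Pool.Agent.Lib.MP_f26228_lc.Haus

set_option autoImplicit false

/-!
# MP_f26228_lc: almost every oracle is at Hausdorff distance one

The proof of helper40 with the bound `fB_partial` replaced by the first Borel-Cantelli lemma: almost
surely `fB B n` is undefined for finitely many `n` only, and these are patched.
-/

namespace Pool.Agent.Lib.MP_f26228_lc

open Nat.Partrec (Code)
open Nat.Partrec.Code Encodable Denumerable MeasureTheory ENNReal

theorem ell_ae : ∀ᵐ B ∂mu, ∀ n, (ell B n).Dom := by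
  rw [ae_all_iff]
  intro n
  rw [ae_iff]
  refine measure_mono_null (fun B hB => ?_) (mu_col_true n)
  exact ell_dom hB

theorem fB_ae : ∀ᵐ B ∂mu, ∃ N, ∀ n ≥ N, (fB B n).Dom := by
  classical
  have h3 : ∀ i, mu {B | ∃ n, ¬ (Psi i n).Dom ∧ col B n ∈ K (i + 1)} ≤ 2⁻¹ ^ (i + 2) := by
    intro i
    by_cases hex : ∃ n, ¬ (Psi i n).Dom
    · obtain ⟨n, hn⟩ := hex
      have h4 : {B | ∃ n, ¬ (Psi i n).Dom ∧ col B n ∈ K (i + 1)} ⊆ {B | col B n ∈ K (i + 1)} := by
        rintro B ⟨n', hn', hK⟩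
        have : n' = n := Psi_subsingleton i hn' hn
        rwa [this] at hK
      exact (measure_mono h4).trans (mu_col_K n (i + 1)).le
    · have h4 : {B | ∃ n, ¬ (Psi i n).Dom ∧ col B n ∈ K (i + 1)} = ∅ := by
        ext B
        simp only [Set.mem_ofPred_eq, Set.mem_empty_iff_false, iff_false]
        rintro ⟨n', hn', -⟩
        exact hex ⟨n', hn'⟩
      rw [h4, measure_empty]; exact bot_le
  have hbc : ∀ᵐ B ∂mu, ∀ᶠ i in Filter.atTop,
      B ∉ {B | ∃ n, ¬ (Psi i n).Dom ∧ col B n ∈ K (i + 1)} := by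
    refine ae_eventually_notMem ?_
    refine ne_top_of_le_ne_top ?_ (ENNReal.tsum_le_tsum h3)
    have h5 : ∀ i : ℕ, (2⁻¹ : ℝ≥0∞) ^ (i + 2) = 2⁻¹ ^ 2 * 2⁻¹ ^ i := fun i => by
      rw [pow_add, mul_comm]
    rw [tsum_congr h5, ENNReal.tsum_mul_left, ENNReal.tsum_geometric, ENNReal.one_sub_inv_two,
      inv_inv, pow_two, mul_assoc, ENNReal.inv_mul_cancel (by norm_num) (by norm_num), mul_one]
    simp
  filter_upwards [hbc, ell_ae] with B hB hell
  obtain ⟨I, hI⟩ := Filter.eventually_atTop.1 hB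
  have hfin : (⋃ i ∈ Finset.range I, {n | ¬ (Psi i n).Dom}).Finite := by
    refine Set.Finite.biUnion (Finset.finite_toSet _) fun i _ => ?_
    exact (Psi_subsingleton i).finite
  obtain ⟨N, hN⟩ := hfin.bddAbove
  refine ⟨N + 1, fun n hn => ?_⟩
  obtain ⟨l, hl⟩ := Part.dom_iff_mem.1 (hell n)
  cases l with
  | zero => exact Part.dom_iff_mem.2 ⟨0, Part.mem_bind hl (Part.mem_some 0)⟩
  | succ i =>
    have hd : (Psi i n).Dom := by
      by_contra hcon
      rcases lt_or_ge i I with hi | hi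
      · have := hN (Set.mem_biUnion (Finset.mem_coe.2 (Finset.mem_range.2 hi)) hcon)
        omega
      · exact hI i hi ⟨n, hcon, mem_ell.1 hl⟩
    obtain ⟨v, hv⟩ := Part.dom_iff_mem.1 hd
    exact Part.dom_iff_mem.2 ⟨v, Part.mem_bind hl hv⟩

/-- `fB`, patched below `N` -/
noncomputable def fBN (N : ℕ) (B : ℕ → Bool) (n : ℕ) : Part ℕ :=
  (ell B n).bind fun l => Psi' (if n < N then 0 else l) n

theorem fBN_of_ge {N : ℕ} {B : ℕ → Bool} {n : ℕ} (h : N ≤ n) : fBN N B n = fB B n := by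
  unfold fBN fB
  simp only [if_neg (not_lt.2 h)]

theorem fBN_dom {N : ℕ} {B : ℕ → Bool} (h1 : ∀ n, (ell B n).Dom) (h2 : ∀ n ≥ N, (fB B n).Dom)
    (n : ℕ) : (fBN N B n).Dom := by
  rcases lt_or_ge n N with h | h
  · obtain ⟨l, hl⟩ := Part.dom_iff_mem.1 (h1 n)
    refine Part.dom_iff_mem.2 ⟨0, Part.mem_bind hl ?_⟩
    rw [if_pos h]
    exact Part.mem_some 0
  · rw [fBN_of_ge h]
    exact h2 n h

theorem fBN_recursiveIn (N : ℕ) (B : ℕ → Bool) : Nat.RecursiveIn {orc B} (fBN N B) := by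
  have hO : Nat.RecursiveIn {orc B} (orc B) := Nat.RecursiveIn.oracle _ rfl
  have h1 : Nat.RecursiveIn {orc B} (ell B) := Nat.RecursiveIn.rfind hO
  have h2 : Nat.RecursiveIn {orc B} (fun n => (n : ℕ) : ℕ →. ℕ) :=
    (Nat.Primrec.id).recursiveIn
  have hp : Partrec₂ (fun l n : ℕ => Psi' (if n < N then 0 else l) n) := by
    refine Partrec₂.comp (f := Psi') (g := fun x : ℕ × ℕ => if x.2 < N then 0 else x.1)
      (h := fun x : ℕ × ℕ => x.2) Psi'_partrec ?_ Computable.snd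
    exact (Primrec.ite (Primrec.nat_lt.comp Primrec.snd (Primrec.const N)) (Primrec.const 0)
      Primrec.fst).to_comp
  have h3 : Nat.RecursiveIn {orc B} (Nat.unpaired (fun l n : ℕ => Psi' (if n < N then 0 else l) n)) :=
    (Partrec₂.unpaired'.2 hp).recursiveIn
  refine (h3.comp (h1.pair h2)).of_eq fun n => ?_
  unfold fBN
  apply Part.ext
  intro v
  simp [Seq.seq, Nat.unpaired]

theorem Dset_le' {B : ℕ → Bool} {g : ℕ →. ℕ} (hg : Nat.RecursiveIn {orc B} g) {v : ℕ → ℕ}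
    (hv : ∀ n, v n ∈ g n) : Nat.RecursiveIn {orc B} (orc (Dset B v)) := by
  have hO : Nat.RecursiveIn {orc B} (orc B) := Nat.RecursiveIn.oracle _ rfl
  have h2 : Nat.RecursiveIn {orc B} (fun n => (n : ℕ) : ℕ →. ℕ) :=
    (Nat.Primrec.id).recursiveIn
  have hb : Nat.RecursiveIn {orc B} (fun n => (blk n : ℕ) : ℕ →. ℕ) :=
    (Partrec.nat_iff.1 blk_computable.partrec).recursiveIn
  have hK : Nat.RecursiveIn {orc B} (fun n => (Kfun n : ℕ) : ℕ →. ℕ) :=
    (Partrec.nat_iff.1 Kfun_computable.partrec).recursiveIn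
  refine (hK.comp (h2.pair ((hO.comp hb).pair (hg.comp hb)))).of_eq fun x => ?_
  have h3 : g (blk x) = Part.some (v (blk x)) := Part.eq_some_iff.2 (hv _)
  have h4 : Kfun (Nat.pair x (Nat.pair (B (blk x)).toNat (v (blk x)))) = (Dset B v x).toNat := by
    unfold Kfun Dset
    simp only [Nat.unpair_pair]
    split_ifs with h
    · rfl
    · rw [bit_eq]
      cases (v (blk x)).testBit x <;> simp
  simp [orc, Seq.seq, h3, h4]

/-- **The almost everywhere form.** -/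
theorem main_ae : ∃ A : ℕ → Bool,
    (∀ᵐ B ∂mu, ∃ D : ℕ → Bool,
      TuringEquivalent (fun n => Part.some (D n).toNat) (fun n => Part.some (B n).toNat) ∧
      ∀ C : ℕ → Bool, TuringReducible (fun n => Part.some (C n).toNat)
        (fun n => Part.some (A n).toNat) → 1 ≤ dens C D) ∧
    (∀ᵐ B ∂mu, ¬ ∃ G : ℕ → Bool,
      TuringReducible (fun n => Part.some (G n).toNat) (fun n => Part.some (B n).toNat) ∧
      ∀ W : Set (List Bool),
        (∃ f : ℕ →. ℕ, TuringReducible f (fun n => Part.some (A n).toNat) ∧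
          ∀ σ : List Bool, σ ∈ W ↔ (f (Encodable.encode σ)).Dom) →
        (∀ σ : List Bool, ∃ τ ∈ W, σ <+: τ) →
        ∃ n : ℕ, List.ofFn (fun i : Fin n => G i) ∈ W) := by
  classical
  have hpow : Primrec₂ (fun a b : ℕ => a ^ b) := Primrec₂.unpaired'.1 Nat.Primrec.pow
  have hh : Primrec (fun n : ℕ => 2 ^ sq (n + 1)) :=
    hpow.comp (Primrec.const 2) (sq_primrec.comp Primrec.succ)
  obtain ⟨A, hA1, hA2⟩ := exists_generic hh (fun n => Nat.two_pow_pos _) proh_re proh_card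
  refine ⟨graph A, ?_, nonW hA1⟩
  have hgood : ∀ᵐ B ∂mu, ∀ e : ℕ, (∀ n, ∃ v < 2 ^ sq (n + 1), ∃ l, ∀ l' ≥ l,
      Rel e (seg A l') n v) → ∀ N, ∃ n ≥ N, ∃ v ∈ fB B n, ∃ l, Rel e (seg A l) n v := by
    rw [ae_all_iff]
    intro e
    by_cases hlim : ∀ n, ∃ v < 2 ^ sq (n + 1), ∃ l, ∀ l' ≥ l, Rel e (seg A l') n v
    · obtain ⟨i, hi⟩ := hA2 (Rel e) (Rel.re e) hlim
      have hD : ∀ N, ∃ n ≥ N, n ∈ {n | ∃ v ∈ Psi i n, ∃ l, Rel e (seg A l) n v} := hi
      filter_upwards [exists_hit_io (i + 1) hD] with B hB _ N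
      obtain ⟨n, hn, ⟨v, hv, hl⟩, hK⟩ := hB N
      exact ⟨n, hn, v, Part.mem_bind (mem_ell.2 hK) hv, hl⟩
    · exact Filter.Eventually.of_forall fun B hcon => absurd hcon hlim
  filter_upwards [hgood, fB_ae, ell_ae] with B hB2 hB3 hB4
  obtain ⟨N₀, hN₀⟩ := hB3
  let v : ℕ → ℕ := fun n => (fBN N₀ B n).get (fBN_dom hB4 hN₀ n)
  have hv : ∀ n, v n ∈ fBN N₀ B n := fun n => Part.get_mem _
  refine ⟨Dset B v, ⟨RecursiveIn.iff_nat.2 (Dset_le' (fBN_recursiveIn N₀ B) hv),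
    RecursiveIn.iff_nat.2 (le_Dset B v)⟩, ?_⟩
  intro C hC
  obtain ⟨F, hF1, hF2, hF3⟩ := use_principle (nat (graph A))
    (fun n => Part.some (C n).toNat) (RecursiveIn.iff_nat.1 hC)
  obtain ⟨e, he⟩ := Rel.exists_index (RelF_re hF1)
  have hlim : ∀ n, ∃ v < 2 ^ sq (n + 1), ∃ l, ∀ l' ≥ l, Rel e (seg A l') n v := by
    intro n
    obtain ⟨w, hw1, hw2⟩ := exists_bits (sq (n + 1)) (fun x => !C x)
    have h1 : ∀ x : ℕ, ∃ M, (C x).toNat ∈ F (seg (nat (graph A)) M) x := fun x =>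
      (hF3 x _).1 (Part.mem_some _)
    choose M hM using h1
    refine ⟨w, hw1, (Finset.range (sq (n + 1))).sup M, fun l' hl' => ?_⟩
    rw [he]
    intro x hx
    refine ⟨(C x).toNat, ?_, ?_⟩
    · rw [gseg_seg]
      refine hF2 _ _ _ _ (seg_prefix _ (le_trans ?_ hl')) (hM x)
      exact Finset.le_sup (f := M) (Finset.mem_range.2 hx)
    · rw [hw2 x hx]
      cases C x <;> rfl
  refine one_le_dens fun N => ?_
  obtain ⟨n, hn, w, hw, l, hl⟩ := hB2 e hlim (max N N₀)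
  refine ⟨n, (le_max_left _ _).trans hn, fun x hx1 hx2 => ?_⟩
  have hn0 : N₀ ≤ n := (le_max_right _ _).trans hn
  have hwv : w = v n := Part.mem_unique hw (by rw [← fBN_of_ge hn0]; exact hv n)
  rw [he] at hl
  obtain ⟨b, hb1, hb2⟩ := hl x hx2
  rw [gseg_seg] at hb1
  have hb3 : b = (C x).toNat := by
    have := (hF3 x b).2 ⟨l, hb1⟩
    simpa using this
  have hblk : blk x = n := blk_eq hx1.le hx2
  show C x ≠ Dset B v x
  unfold Dset
  rw [hblk, if_neg (by omega), ← hwv]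
  rw [hb3] at hb2
  have hbit : bit w x = 1 - (C x).toNat := by omega
  rw [hbit]
  cases C x <;> simp

end Pool.Agent.Lib.MP_f26228_lc
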